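import Pool.Agent.R328.ThetaAll

set_option autoImplicit false

namespace Pool.Agent.Results.MP_69fa08_nt.NoParryPower

open Pool.Agent.R341.Powers Pool.Agent.R328.Theta

/-- **No power `θ_d^k`, `k ≥ 2`, of the root `θ_d > 1` of `x^d - x^(d-1) - 1`, `d ≥ 6`, is a
Parry number.** -/
theorem result :
    (∀ d : ℕ, 6 ≤ d → ∃! θ : ℝ, 1 < θ ∧ θ ^ d - θ ^ (d - 1) - 1 = 0) ∧
    ∀ d : ℕ, 6 ≤ d → ∀ θ : ℝ, 1 < θ → θ ^ d - θ ^ (d - 1) - 1 = 0 →
      ∀ k : ℕ, 2 ≤ k → ¬ Parry (θ ^ k) := by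
  constructor
  · intro d hd
    have hc : Continuous fun x : ℝ => x ^ d - x ^ (d - 1) - 1 := by fun_prop
    have h2 : (0 : ℝ) < 2 ^ d - 2 ^ (d - 1) - 1 := by
      have e : (2 : ℝ) ^ d = 2 ^ (d - 1) * 2 := by
        rw [← pow_succ, Nat.sub_add_cancel (by omega)]
      have : (2 : ℝ) ^ 1 ≤ 2 ^ (d - 1) := pow_le_pow_right₀ (by norm_num) (by omega)
      linarith
    obtain ⟨θ, hθ, hθ0⟩ := intermediate_value_Ioo (show (1 : ℝ) ≤ 2 by norm_num) hc.continuousOn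
      ⟨show (1 : ℝ) ^ d - 1 ^ (d - 1) - 1 < 0 by norm_num, h2⟩
    have key : ∀ a b : ℝ, 1 < a → a ^ d - a ^ (d - 1) - 1 = 0 → 1 < b →
        b ^ d - b ^ (d - 1) - 1 = 0 → a ≤ b := by
      intro a b ha ha0 hb hb0
      by_contra hcon
      push Not at hcon
      have ea : a ^ d = a ^ (d - 1) * a := by
        rw [← pow_succ, Nat.sub_add_cancel (by omega)]
      have eb : b ^ d = b ^ (d - 1) * b := by
        rw [← pow_succ, Nat.sub_add_cancel (by omega)]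
      have h1 : b ^ (d - 1) ≤ a ^ (d - 1) := pow_le_pow_left₀ (by linarith) hcon.le _
      have h3 : 0 < b ^ (d - 1) := by positivity
      nlinarith
    refine ⟨θ, ⟨hθ.1, hθ0⟩, ?_⟩
    rintro θ' ⟨h1, h0⟩
    exact le_antisymm (key _ _ h1 h0 hθ.1 hθ0) (key _ _ hθ.1 hθ0 h1 h0)
  · intro d hd θ hθ1 hθ k hk
    exact res_all d hd θ hθ1 (by linarith) k hk

end Pool.Agent.Results.MP_69fa08_nt.NoParryPower
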